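import Pool.Agent.Results.MP_fd8838_nt.PolynomialExceptional
import Pool.Agent.V11001.KM.Near

/-!
# Möller's conjecture near the powers of almost every real number

Let `gcd(m, d) = 1`, `2 ≤ m ≤ d^(d/(d-1))`, let `R` be admissible and `ν k / log k → ∞`, for example `ν k = k`. For
almost every real `z > 1` and every nonconstant polynomial `f` with integer coefficients there is `θ > 0` such that only
finitely many integers `n` with `||n| - β z ^ (ν k)| ≤ z ^ (θ ν k)` for some `k` have `f(n)` in the exceptional set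
`E(d, m, R)` (for `f = X`: only finitely many elements of `E(d, m, R)` are near the powers); and the orbits of all the
other values `f(n)` descend below `f(n) ^ (1 - κ / deg f + ε)`.
-/

set_option autoImplicit false

open Filter Topology MeasureTheory Polynomial

namespace Pool.Agent.Results.MP_fd8838_nt.IntegersNearPowers

open PolynomialExceptional (H Defined E)
open Pool.Agent.V11001.KM

/-- `f(n)` is positive and not divisible by `d`, and its orbit has no term between `1` and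
`f(n) ^ (1 - (1 - (d - 1) / d * log m / log d) / deg f + ε)` -/
def NoDescent (d m : ℕ) (r : ℤ → ℤ) (f : ℤ[X]) (ε : ℝ) (n : ℤ) : Prop :=
  0 < f.eval n ∧ ¬ (d : ℤ) ∣ f.eval n ∧
    ¬ ∃ k : ℕ, Defined d m r (f.eval n) k ∧ 0 < (H d m r)^[k] (f.eval n) ∧
      (((H d m r)^[k] (f.eval n) : ℤ) : ℝ) ≤ ((f.eval n : ℤ) : ℝ) ^
        (1 - (1 - ((d : ℝ) - 1) / d * (Real.log m / Real.log d)) / f.natDegree + ε)

/-- the bad integers `n`: `f(n)` is in the exceptional set or its orbit does not descend far enough -/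
def Bad (d m : ℕ) (r : ℤ → ℤ) (f : ℤ[X]) (ε : ℝ) : Set ℤ :=
  {n | f.eval n ∈ E d m r ∨ NoDescent d m r f ε n}

theorem countable_poly : Countable ℤ[X] :=
  Cardinal.mk_le_aleph0_iff.1 (Polynomial.cardinalMk_le_max.trans (by simp))

lemma fin_box (P : ℤ → Prop) (X : ℝ) : {n : ℤ | P n ∧ |(n : ℝ)| ≤ X}.Finite := by
  refine (Set.finite_Icc (-⌈X⌉) ⌈X⌉).subset ?_
  rintro n ⟨-, hn⟩
  obtain ⟨h1, h2⟩ := abs_le.1 hn
  have h3 := Int.le_ceil X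
  constructor
  · have : (-(⌈X⌉ : ℤ) : ℝ) ≤ n := by linarith
    exact_mod_cast this
  · have : (n : ℝ) ≤ (⌈X⌉ : ℤ) := by linarith
    exact_mod_cast this

/-- the number of bad integers -/
lemma count (d m : ℕ) (hd : 2 ≤ d) (hm : 2 ≤ m) (hc : Nat.Coprime m d)
    (hle : (m : ℝ) ≤ (d : ℝ) ^ ((d : ℝ) / ((d : ℝ) - 1))) (r : ℤ → ℤ)
    (hr : ∀ j : ℤ, 1 ≤ j → j < d → r j ≡ m * j [ZMOD d]) (f : ℤ[X]) (hf : 1 ≤ f.natDegree) (ε : ℝ) (hε : 0 < ε) :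
    ∃ s K : ℝ, 0 ≤ s ∧ s < 1 ∧ 0 < K ∧ ∀ X : ℝ, 1 ≤ X →
      ({n : ℤ | n ∈ Bad d m r f ε ∧ |(n : ℝ)| ≤ X}.ncard : ℝ) ≤ K * X ^ s := by
  obtain ⟨⟨δ₁, K₁, hδ₁, hK₁, h₁⟩, h2⟩ := PolynomialExceptional.result d m hd hm hc hle r hr f hf
  obtain ⟨δ₂, K₂, hδ₂, hK₂, h₂⟩ := h2 ε hε
  set δ : ℝ := min (min δ₁ δ₂) 1 with hδ
  have hδ0 : 0 < δ := lt_min (lt_min hδ₁ hδ₂) one_pos
  have hδ1 : δ ≤ 1 := min_le_right _ _
  have hδa : δ ≤ δ₁ := (min_le_left _ _).trans (min_le_left _ _)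
  have hδb : δ ≤ δ₂ := (min_le_left _ _).trans (min_le_right _ _)
  refine ⟨1 - δ, K₁ * 4 + K₂, by linarith, by linarith, by positivity, fun X hX => ?_⟩
  have hX0 : 0 < X := by linarith
  set A₁ : Set ℤ := {n : ℤ | f.eval n ∈ E d m r ∧ |(n : ℝ)| ≤ X} with hA₁
  set A₂ : Set ℤ := {n : ℤ | NoDescent d m r f ε n ∧ |(n : ℝ)| ≤ X} with hA₂
  have hsub : {n : ℤ | n ∈ Bad d m r f ε ∧ |(n : ℝ)| ≤ X} ⊆ A₁ ∪ A₂ := by
    rintro n ⟨hn | hn, hX'⟩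
    · exact Or.inl ⟨hn, hX'⟩
    · exact Or.inr ⟨hn, hX'⟩
  have hfin : (A₁ ∪ A₂).Finite := (fin_box _ X).union (fin_box _ X)
  have hcard : ({n : ℤ | n ∈ Bad d m r f ε ∧ |(n : ℝ)| ≤ X}.ncard : ℝ) ≤ (A₁.ncard : ℝ) + (A₂.ncard : ℝ) := by
    have := (Set.ncard_le_ncard hsub hfin).trans (Set.ncard_union_le _ _)
    exact_mod_cast this
  have hA1 : (A₁.ncard : ℝ) ≤ K₁ * 4 * X ^ (1 - δ) := by
    have h3 := h₁ (-⌈X⌉ - 1) (4 * X) (by linarith)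
    have hc1 := Int.ceil_lt_add_one X
    have hc2 := Int.le_ceil X
    have hsub1 : A₁ ⊆ {n : ℤ | (-⌈X⌉ - 1 : ℤ) < n ∧ (n : ℝ) ≤ ((-⌈X⌉ - 1 : ℤ) : ℝ) + 4 * X ∧
        f.eval n ∈ E d m r} := by
      rintro n ⟨hn, hnX⟩
      obtain ⟨g1, g2⟩ := abs_le.1 hnX
      refine ⟨?_, ?_, hn⟩
      · have : (((-⌈X⌉ - 1 : ℤ)) : ℝ) < n := by
          push_cast
          linarith
        exact_mod_cast this
      · push_cast
        linarith
    have hfin1 : {n : ℤ | (-⌈X⌉ - 1 : ℤ) < n ∧ (n : ℝ) ≤ ((-⌈X⌉ - 1 : ℤ) : ℝ) + 4 * X ∧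
        f.eval n ∈ E d m r}.Finite := by
      refine (fin_box (fun _ => True) (⌈X⌉ + 1 + 4 * X)).subset ?_
      rintro n ⟨g1, g2, -⟩
      have g1' : (((-⌈X⌉ - 1 : ℤ)) : ℝ) < n := by exact_mod_cast g1
      push_cast at g1' g2
      refine ⟨trivial, abs_le.2 ⟨by linarith, by linarith⟩⟩
    calc (A₁.ncard : ℝ) ≤ _ := by exact_mod_cast Set.ncard_le_ncard hsub1 hfin1
      _ ≤ K₁ * (4 * X) ^ (1 - δ₁) := h3
      _ ≤ K₁ * (4 * X) ^ (1 - δ) := by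
          apply mul_le_mul_of_nonneg_left _ hK₁.le
          exact Real.rpow_le_rpow_of_exponent_le (by linarith) (by linarith)
      _ = K₁ * ((4 : ℝ) ^ (1 - δ) * X ^ (1 - δ)) := by rw [Real.mul_rpow (by norm_num) hX0.le]
      _ ≤ K₁ * (4 * X ^ (1 - δ)) := by
          apply mul_le_mul_of_nonneg_left _ hK₁.le
          apply mul_le_mul_of_nonneg_right _ (Real.rpow_nonneg hX0.le _)
          calc (4 : ℝ) ^ (1 - δ) ≤ 4 ^ (1 : ℝ) := Real.rpow_le_rpow_of_exponent_le (by norm_num) (by linarith)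
            _ = 4 := Real.rpow_one _
      _ = _ := by ring
  have hA2 : (A₂.ncard : ℝ) ≤ K₂ * X ^ (1 - δ) := by
    have h4 := h₂ X hX
    have heq : A₂ = {n : ℤ | |(n : ℝ)| ≤ X ∧ 0 < f.eval n ∧ ¬ (d : ℤ) ∣ f.eval n ∧
        ¬ ∃ k : ℕ, Defined d m r (f.eval n) k ∧ 0 < (H d m r)^[k] (f.eval n) ∧
          (((H d m r)^[k] (f.eval n) : ℤ) : ℝ) ≤ ((f.eval n : ℤ) : ℝ) ^
            (1 - (1 - ((d : ℝ) - 1) / d * (Real.log m / Real.log d)) / f.natDegree + ε)} := by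
      ext n
      constructor
      · rintro ⟨g1, g2⟩
        exact ⟨g2, g1⟩
      · rintro ⟨g2, g1⟩
        exact ⟨g1, g2⟩
    rw [heq]
    refine h4.trans ?_
    apply mul_le_mul_of_nonneg_left _ hK₂.le
    exact Real.rpow_le_rpow_of_exponent_le hX (by linarith)
  calc _ ≤ (A₁.ncard : ℝ) + (A₂.ncard : ℝ) := hcard
    _ ≤ K₁ * 4 * X ^ (1 - δ) + K₂ * X ^ (1 - δ) := add_le_add hA1 hA2
    _ = _ := by ring

lemma count' {d m : ℕ} {r : ℤ → ℤ} {f : ℤ[X]} {ε s K : ℝ} (hK : 0 < K)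
    (h : ∀ X : ℝ, 1 ≤ X → ({n : ℤ | n ∈ Bad d m r f ε ∧ |(n : ℝ)| ≤ X}.ncard : ℝ) ≤ K * X ^ s) (η : ℝ) (hη : 0 < η) :
    ∃ C : ℝ, ∀ X : ℝ, 1 ≤ X → {n : ℤ | n ∈ Bad d m r f ε ∧ |(n : ℝ)| ≤ X}.Finite ∧
      ({n : ℤ | n ∈ Bad d m r f ε ∧ |(n : ℝ)| ≤ X}.ncard : ℝ) ≤ C * X ^ (s + η) :=
  ⟨K, fun X hX => ⟨fin_box _ X, (h X hX).trans (mul_le_mul_of_nonneg_left
    (Real.rpow_le_rpow_of_exponent_le hX (by linarith)) hK.le)⟩⟩

lemma bad_mono {d m : ℕ} {r : ℤ → ℤ} {f : ℤ[X]} {ε ε' : ℝ} (h : ε ≤ ε') : Bad d m r f ε' ⊆ Bad d m r f ε := by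
  rintro n (hn | ⟨h1, h2, h3⟩)
  · exact Or.inl hn
  · refine Or.inr ⟨h1, h2, ?_⟩
    rintro ⟨k, g1, g2, g3⟩
    refine h3 ⟨k, g1, g2, g3.trans ?_⟩
    apply Real.rpow_le_rpow_of_exponent_le
    · exact_mod_cast h1
    · linarith

/-- **Möller's conjecture near the powers of almost every real number.** Let `gcd(m, d) = 1`,
`2 ≤ m ≤ d^(d/(d-1))`, let `R` be admissible, `ν k / log k → ∞` and let `B` be a countable set of real numbers.
`Bad d m r f ε` is the set of the integers `n` such that `f(n) ∈ E(d, m, R)`, or `f(n)` is positive and not divisible by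
`d` and its orbit has no positive term `≤ f(n) ^ (1 - κ / deg f + ε)`, `κ = 1 - (d - 1) / d * log m / log d`.
(1) For every nonconstant `f` and `ε > 0` there is `s < 1` such that for every `θ < 1` there is a set `N` of Hausdorff
dimension at most `s / (1 - θ)` with: for all `z > 1` outside `N` and all positive `β` in `B` only finitely many `n` with
`||n| - β z ^ (ν k)| ≤ z ^ (θ ν k)` for some `k` are in `Bad d m r f ε`.
(2) For almost every `z > 1`, for all nonconstant `f` and all `ε > 0` there is `θ > 0` such that for all positive `β` in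
`B` only finitely many such `n` are in `Bad d m r f ε`. -/
theorem result (d m : ℕ) (hd : 2 ≤ d) (hm : 2 ≤ m) (hc : Nat.Coprime m d)
    (hle : (m : ℝ) ≤ (d : ℝ) ^ ((d : ℝ) / ((d : ℝ) - 1))) (r : ℤ → ℤ)
    (hr : ∀ j : ℤ, 1 ≤ j → j < d → r j ≡ m * j [ZMOD d]) (ν : ℕ → ℝ) (hν : Fast ν) (B : Set ℝ) (hB : B.Countable) :
    (∀ f : ℤ[X], 1 ≤ f.natDegree → ∀ ε : ℝ, 0 < ε → ∃ s : ℝ, 0 ≤ s ∧ s < 1 ∧ ∀ θ : ℝ, θ < 1 →
      ∃ N : Set ℝ, dimH N ≤ ENNReal.ofReal (s / (1 - θ)) ∧ ∀ z : ℝ, 1 < z → z ∉ N → ∀ β ∈ B, 0 < β →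
        {n : ℤ | n ∈ Bad d m r f ε ∧ Near ν θ β z |(n : ℝ)|}.Finite) ∧
    (∀ᵐ z : ℝ, 1 < z → ∀ f : ℤ[X], 1 ≤ f.natDegree → ∀ ε : ℝ, 0 < ε → ∃ θ : ℝ, 0 < θ ∧ ∀ β ∈ B, 0 < β →
        {n : ℤ | n ∈ Bad d m r f ε ∧ Near ν θ β z |(n : ℝ)|}.Finite) := by
  have hP := countable_poly
  refine ⟨fun f hf ε hε => ?_, ?_⟩
  · obtain ⟨s, K, hs0, hs1, hK, h⟩ := count d m hd hm hc hle r hr f hf ε hε
    refine ⟨s, hs0, hs1, fun θ hθ => ?_⟩
    obtain ⟨N, h1, h2⟩ := family (fun n : ℤ => |(n : ℝ)|) hν hs0 hθ B hB (J := Unit)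
      (fun _ => Bad d m r f ε) (fun _ η hη => count' hK h η hη)
    exact ⟨N, h1, fun z hz hzN β hβ hβ0 => h2 z hz hzN β hβ hβ0 ()⟩
  · have hall : ∀ (f : ℤ[X]) (j : ℕ), ∀ᵐ z : ℝ, 1 < z → 1 ≤ f.natDegree → ∃ θ : ℝ, 0 < θ ∧ ∀ β ∈ B, 0 < β →
        {n : ℤ | n ∈ Bad d m r f (1 / ((j : ℝ) + 1)) ∧ Near ν θ β z |(n : ℝ)|}.Finite := by
      intro f j
      by_cases hf : 1 ≤ f.natDegree
      · obtain ⟨s, K, hs0, hs1, hK, h⟩ := count d m hd hm hc hle r hr f hf (1 / ((j : ℝ) + 1)) (by positivity)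
        filter_upwards [ae_family (fun n : ℤ => |(n : ℝ)|) hν hs0 B hB (J := Unit)
          (fun _ => Bad d m r f (1 / ((j : ℝ) + 1))) (fun _ η hη => count' hK h η hη)] with z hz hz1 _
        exact ⟨(1 - s) / 2, by linarith, fun β hβ hβ0 => hz hz1 _ (by linarith) β hβ hβ0 ()⟩
      · exact Filter.Eventually.of_forall fun z _ h => absurd h hf
    simp only [← MeasureTheory.ae_all_iff] at hall
    filter_upwards [hall] with z hz hz1 f hf ε hε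
    obtain ⟨j, hj⟩ := exists_nat_one_div_lt hε
    obtain ⟨θ, hθ, h⟩ := hz f j hz1 hf
    refine ⟨θ, hθ, fun β hβ hβ0 => (h β hβ hβ0).subset ?_⟩
    rintro n ⟨g1, g2⟩
    exact ⟨bad_mono hj.le g1, g2⟩

end Pool.Agent.Results.MP_fd8838_nt.IntegersNearPowers
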