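import Pool.Agent.Helper203.Win.Multi
import Pool.Agent.V35.WM
import Pool.Agent.Results.MP_fd8838_nt.BelowEntropyTwoThree

/-!
# Möller's exceptional sets for `d = 2`, `m = 3` and all offsets at once have no elements in windows

Let `v_n ≥ 1` be a sequence with exponent of convergence at most `τ` (`τ = 0` for `b ^ n`, `τ = 1 / c` for `(n + 1) ^ c`),
`0 ≤ δ ≤ 1` and `θ < 1`. There is `η < H = 0.94995…` such that for all real `α` outside a set of Hausdorff dimension at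
most `(η + (2 - η) δ + τ) / (1 - θ)` and all large `n`, NO integer `x` with `|x - α v_n| ≤ v_n ^ θ` is in ANY of the
exceptional sets `E(2, 3, {ρ})`, `ρ` odd, `|ρ| ≤ v_n ^ δ`.
-/

set_option autoImplicit false

namespace Pool.Agent.Results.MP_fd8838_nt.OffsetsInWindows

open BelowEntropyTwoThree (E entropy)

/-- the exponent of convergence of the sequence `v` is at most `τ` -/
def ExpLe (v : ℕ → ℝ) (τ : ℝ) : Prop := ∀ t : ℝ, τ < t → Summable fun n : ℕ => (v n) ^ (-t)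

/-- The integer `x` is in the exceptional set `E(2, 3, {ρ})` for some odd `ρ` of absolute value at most `B`. -/
def InSome (B : ℝ) (x : ℤ) : Prop := ∃ ρ : ℤ, Odd ρ ∧ |(ρ : ℝ)| ≤ B ∧ x ∈ E 2 3 (fun _ => ρ)

/-- the number of the elements of the sets with `|ρ| ≤ B` up to `X ≥ B` -/
lemma count : ∃ η A : ℝ, 0 ≤ η ∧ η < entropy ∧ η < 1 ∧ 0 < A ∧ ∀ B X : ℝ, 1 ≤ B → B ≤ X →
    {x : ℤ | InSome B x ∧ (x : ℝ) ≤ X}.Finite ∧
      ({x : ℤ | InSome B x ∧ (x : ℝ) ≤ X}.ncard : ℝ) ≤ A * B ^ (2 - η) * X ^ η := by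
  classical
  obtain ⟨η₀, A, hη, hA, h⟩ := BelowEntropyTwoThree.result
  have hent : 0 < entropy ∧ entropy < 1 := by
    have hl3 : Real.log 2 < Real.log 3 := Real.log_lt_log (by norm_num) (by norm_num)
    have hl2 : 0 < Real.log 2 := Real.log_pos (by norm_num)
    have hp0 : 0 < Real.log 2 / Real.log 3 := by positivity
    have hp1 : Real.log 2 / Real.log 3 < 1 := (div_lt_one (by linarith)).2 hl3
    unfold entropy
    refine ⟨div_pos (Real.binEntropy_pos hp0 hp1) hl2, ?_⟩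
    rw [div_lt_one hl2]
    refine Real.binEntropy_lt_log_two.2 ?_
    intro h2
    rw [div_eq_iff (by linarith)] at h2
    have h3 : Real.log 3 = Real.log 4 := by
      have h4 : Real.log 4 = 2 * Real.log 2 := by
        rw [show (4 : ℝ) = 2 ^ 2 by norm_num, Real.log_pow]
        norm_num
      rw [h4]
      linarith
    have h4 : Real.log 3 < Real.log 4 := Real.log_lt_log (by norm_num) (by norm_num)
    linarith
  refine ⟨max η₀ 0, 3 * A, le_max_right _ _, max_lt hη hent.1, max_lt (hη.trans hent.2) one_pos, by positivity, ?_⟩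
  set η := max η₀ 0 with hηd
  have hη1 : η < 1 := max_lt (hη.trans hent.2) one_pos
  intro B X hB hX
  have hX1 : 1 ≤ X := hB.trans hX
  have hfin1 : ∀ (r : ℤ → ℤ), {n : ℤ | n ∈ E 2 3 r ∧ (n : ℝ) ≤ X}.Finite := by
    intro r
    refine (Set.finite_Icc (0 : ℤ) ⌊X⌋).subset ?_
    rintro n ⟨⟨h1, -, -⟩, h2⟩
    exact ⟨h1.le, Int.le_floor.2 h2⟩
  set R : Finset ℤ := (Finset.Icc (-⌊B⌋) ⌊B⌋).filter fun ρ => Odd ρ with hR
  have hsub : {x : ℤ | InSome B x ∧ (x : ℝ) ≤ X} ⊆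
      ⋃ ρ ∈ R, {n : ℤ | n ∈ E 2 3 (fun _ => ρ) ∧ (n : ℝ) ≤ X} := by
    rintro x ⟨⟨ρ, h1, h2, h3⟩, h4⟩
    rw [Set.mem_iUnion₂]
    refine ⟨ρ, ?_, h3, h4⟩
    rw [hR, Finset.mem_filter, Finset.mem_Icc]
    obtain ⟨h5, h6⟩ := abs_le.1 h2
    refine ⟨⟨?_, Int.le_floor.2 h6⟩, h1⟩
    have h7 : -ρ ≤ ⌊B⌋ := Int.le_floor.2 (by push_cast; linarith)
    linarith
  have hfin : (⋃ ρ ∈ R, {n : ℤ | n ∈ E 2 3 (fun _ => ρ) ∧ (n : ℝ) ≤ X}).Finite :=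
    Set.Finite.biUnion (Finset.finite_toSet _) fun ρ _ => hfin1 _
  refine ⟨hfin.subset hsub, ?_⟩
  have hcardR : (R.card : ℝ) ≤ 3 * B := by
    have h1 : R.card ≤ (Finset.Icc (-⌊B⌋) ⌊B⌋).card := Finset.card_filter_le _ _
    rw [Int.card_Icc] at h1
    have hf0 : (0 : ℤ) ≤ ⌊B⌋ := Int.floor_nonneg.2 (by linarith)
    have h2 : ((⌊B⌋ + 1 - -⌊B⌋).toNat : ℤ) = 2 * ⌊B⌋ + 1 := by
      rw [Int.toNat_of_nonneg (by linarith)]
      ring
    have h3 : (R.card : ℤ) ≤ 2 * ⌊B⌋ + 1 := by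
      rw [← h2]
      exact_mod_cast h1
    have h4 : (R.card : ℝ) ≤ 2 * (⌊B⌋ : ℝ) + 1 := by exact_mod_cast h3
    have h5 := Int.floor_le B
    linarith
  have hterm : ∀ ρ ∈ R, (({n : ℤ | n ∈ E 2 3 (fun _ => ρ) ∧ (n : ℝ) ≤ X}.ncard : ℕ) : ℝ) ≤
      A * B ^ (1 - η) * X ^ η := by
    intro ρ hρ
    rw [hR, Finset.mem_filter, Finset.mem_Icc] at hρ
    obtain ⟨⟨h1, h2⟩, h3⟩ := hρ
    have h4 : |(ρ : ℝ)| ≤ B := by
      rw [abs_le]
      have h5 : (ρ : ℝ) ≤ (⌊B⌋ : ℝ) := by exact_mod_cast h2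
      have h6 : (-(⌊B⌋ : ℝ)) ≤ ρ := by exact_mod_cast h1
      have h7 := Int.floor_le B
      constructor <;> linarith
    have hρ0 : ρ ≠ 0 := by
      rintro rfl
      simp at h3
    have h5 : (1 : ℝ) ≤ |(ρ : ℝ)| := by
      have := Int.one_le_abs hρ0
      exact_mod_cast this
    have h6 := h (fun _ => ρ) (by
      intro j hj1 hj2
      have : j = 1 := by omega
      subst this
      obtain ⟨k, hk⟩ := h3
      exact ⟨1 - k, by rw [hk]; ring⟩) X hX1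
    have hr0 : (0 : ℝ) < |(ρ : ℝ)| := by linarith
    have hX0 : 0 < X := by linarith
    -- `|ρ| ^ (1 - η₀) X ^ η₀ ≤ |ρ| ^ (1 - η) X ^ η`
    have h7 : |(ρ : ℝ)| ^ (1 - η₀) * X ^ η₀ ≤ |(ρ : ℝ)| ^ (1 - η) * X ^ η := by
      have e1 : |(ρ : ℝ)| ^ (1 - η₀) = |(ρ : ℝ)| ^ (1 - η) * |(ρ : ℝ)| ^ (η - η₀) := by
        rw [← Real.rpow_add hr0]
        congr 1
        ring
      have e2 : X ^ η = X ^ (η - η₀) * X ^ η₀ := by
        rw [← Real.rpow_add hX0]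
        congr 1
        ring
      rw [e1, e2, mul_assoc]
      refine mul_le_mul_of_nonneg_left ?_ (by positivity)
      refine mul_le_mul_of_nonneg_right ?_ (by positivity)
      exact Real.rpow_le_rpow hr0.le (h4.trans hX) (by linarith [le_max_left η₀ 0])
    have h8 : |(ρ : ℝ)| ^ (1 - η) ≤ B ^ (1 - η) := Real.rpow_le_rpow hr0.le h4 (by linarith)
    calc _ ≤ A * |(ρ : ℝ)| ^ (1 - η₀) * X ^ η₀ := h6
      _ = A * (|(ρ : ℝ)| ^ (1 - η₀) * X ^ η₀) := by ring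
      _ ≤ A * (|(ρ : ℝ)| ^ (1 - η) * X ^ η) := mul_le_mul_of_nonneg_left h7 hA.le
      _ ≤ A * (B ^ (1 - η) * X ^ η) := by
          refine mul_le_mul_of_nonneg_left ?_ hA.le
          exact mul_le_mul_of_nonneg_right h8 (by positivity)
      _ = A * B ^ (1 - η) * X ^ η := by ring
  have hB0 : 0 < B := by linarith
  calc ({x : ℤ | InSome B x ∧ (x : ℝ) ≤ X}.ncard : ℝ)
      ≤ ((⋃ ρ ∈ R, {n : ℤ | n ∈ E 2 3 (fun _ => ρ) ∧ (n : ℝ) ≤ X}).ncard : ℝ) := by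
        exact_mod_cast Set.ncard_le_ncard hsub hfin
    _ ≤ ∑ ρ ∈ R, (({n : ℤ | n ∈ E 2 3 (fun _ => ρ) ∧ (n : ℝ) ≤ X}.ncard : ℕ) : ℝ) := by
        exact_mod_cast Finset.set_ncard_biUnion_le R (fun ρ => {n : ℤ | n ∈ E 2 3 (fun _ => ρ) ∧ (n : ℝ) ≤ X})
    _ ≤ ∑ ρ ∈ R, A * B ^ (1 - η) * X ^ η := Finset.sum_le_sum hterm
    _ = R.card * (A * B ^ (1 - η) * X ^ η) := by rw [Finset.sum_const, nsmul_eq_mul]
    _ ≤ 3 * B * (A * B ^ (1 - η) * X ^ η) := mul_le_mul_of_nonneg_right hcardR (by positivity)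
    _ = 3 * A * B ^ (2 - η) * X ^ η := by
        rw [show (2 : ℝ) - η = 1 + (1 - η) by ring, Real.rpow_add hB0, Real.rpow_one]
        ring

/-- **No exceptional integers in windows, for all offsets at once.** -/
theorem result :
    (∃ η : ℝ, 0 ≤ η ∧ η < entropy ∧ ∀ (v : ℕ → ℝ) (τ θ δ : ℝ), (∀ n, 1 ≤ v n) → 0 ≤ τ → ExpLe v τ → θ < 1 →
      0 ≤ δ → δ ≤ 1 → ∃ X : Set ℝ, dimH X ≤ ENNReal.ofReal ((η + (2 - η) * δ + τ) / (1 - θ)) ∧
        ∀ α : ℝ, α ∉ X → ∃ n0 : ℕ, ∀ n : ℕ, n0 ≤ n → ∀ x : ℤ, |(x : ℝ) - α * v n| ≤ (v n) ^ θ →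
          ∀ ρ : ℤ, Odd ρ → |(ρ : ℝ)| ≤ (v n) ^ δ → x ∉ E 2 3 (fun _ => ρ)) ∧
    (∀ c : ℝ, 0 < c → ExpLe (fun n : ℕ => ((n : ℝ) + 1) ^ c) (1 / c)) ∧
    (∀ b : ℝ, 1 < b → ExpLe (fun n : ℕ => b ^ n) 0) := by
  refine ⟨?_, Pool.Agent.V35.WM.expLe_pow, Pool.Agent.V35.WM.expLe_geom⟩
  obtain ⟨η, A, hη0, hη, hη1, hA, h⟩ := count
  refine ⟨η, hη0, hη, ?_⟩
  intro v τ θ δ hpos hτ hv hθ hδ0 hδ1
  have hs : 0 ≤ η + (2 - η) * δ := by
    have : 0 ≤ (2 - η) * δ := mul_nonneg (by linarith) hδ0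
    linarith
  obtain ⟨X, hX, hX2⟩ := Pool.Agent.Helper203.Win.windowsM (E := ℝ)
    (fun n => {x : ℤ | InSome ((v n) ^ δ) x}) (fun _ (x : ℤ) => (x : ℝ)) hpos hτ hv hs hθ (by
      intro K ε hε
      refine ⟨A * ((K : ℝ) + 1) ^ η, 0, fun n _ => ?_⟩
      have hv1 := hpos n
      have hv0 : 0 < v n := by linarith
      have hB1 : 1 ≤ (v n) ^ δ := Real.one_le_rpow hv1 hδ0
      have hBX : (v n) ^ δ ≤ ((K : ℝ) + 1) * v n := by
        have h1 : (v n) ^ δ ≤ (v n) ^ (1 : ℝ) := Real.rpow_le_rpow_of_exponent_le hv1 hδ1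
        rw [Real.rpow_one] at h1
        have h2 : (0 : ℝ) ≤ K := Nat.cast_nonneg _
        nlinarith
      obtain ⟨g1, g2⟩ := h ((v n) ^ δ) (((K : ℝ) + 1) * v n) hB1 hBX
      have hsub : {t : ℤ | t ∈ {x : ℤ | InSome ((v n) ^ δ) x} ∧ ‖((t : ℤ) : ℝ)‖ ≤ ((K : ℝ) + 1) * v n} ⊆
          {x : ℤ | InSome ((v n) ^ δ) x ∧ (x : ℝ) ≤ ((K : ℝ) + 1) * v n} := by
        rintro t ⟨h1, h2⟩
        exact ⟨h1, (le_abs_self _).trans h2⟩
      refine ⟨g1.subset hsub, ?_⟩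
      calc (({t : ℤ | t ∈ {x : ℤ | InSome ((v n) ^ δ) x} ∧
              ‖((t : ℤ) : ℝ)‖ ≤ ((K : ℝ) + 1) * v n}.ncard : ℕ) : ℝ)
          ≤ ({x : ℤ | InSome ((v n) ^ δ) x ∧ (x : ℝ) ≤ ((K : ℝ) + 1) * v n}.ncard : ℝ) := by
            exact_mod_cast Set.ncard_le_ncard hsub g1
        _ ≤ A * ((v n) ^ δ) ^ (2 - η) * (((K : ℝ) + 1) * v n) ^ η := g2
        _ = A * ((K : ℝ) + 1) ^ η * (v n) ^ (η + (2 - η) * δ) := by
            rw [Real.mul_rpow (by positivity) hv0.le, ← Real.rpow_mul hv0.le, Real.rpow_add hv0,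
              mul_comm δ (2 - η)]
            ring
        _ ≤ A * ((K : ℝ) + 1) ^ η * (v n) ^ (η + (2 - η) * δ + ε) := by
            refine mul_le_mul_of_nonneg_left ?_ (by positivity)
            exact Real.rpow_le_rpow_of_exponent_le hv1 (by linarith))
  refine ⟨X, hX, fun α hα => ?_⟩
  obtain ⟨n0, hn0⟩ := hX2 α hα
  refine ⟨n0, fun n hn x hx ρ hρ hρB hxE => ?_⟩
  have h1 := hn0 n hn x ⟨ρ, hρ, hρB, hxE⟩
  rw [Real.norm_eq_abs, smul_eq_mul, mul_comm] at h1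
  linarith

end Pool.Agent.Results.MP_fd8838_nt.OffsetsInWindows
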