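import Pool.Agent.V11243.PD.Base
import Pool.Agent.Results.MP_fd8838_nt.PolynomialExceptional

/-!
# Möller's exceptional sets and the residue classes modulo powers of an arbitrary prime

Let `gcd(m, d) = 1`, `2 ≤ m ≤ d^(d/(d-1))`, `R` admissible and `f` a polynomial of degree `D ≥ 1` with
integer coefficients. There is `0 < δ ≤ 1` such that for every prime `p` and every `σ > 0` there is a set
`B ⊆ ℤ_p` of Hausdorff dimension at most `(1 - δ) / σ` with the following property: for every `α ∈ ℤ_p`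
outside of `B` and all large `T`, NO integer `n` with `|n| ≤ T` and `|n - α|_p ≤ T ^ (-σ)` has `f n` in the
exceptional set `E(d, m, R)`.  So for `1 - δ < σ < 1` and almost all `α` the progression `n ≡ α` modulo
`p ^ j`, `|n| ≤ p ^ (j / σ)`, which has about `2 p ^ (j (1 / σ - 1))` members, contains no such `n`, for all
large `j`.  The same for the descent: with some other `δ`, for all these `n` with `f n` positive and not
divisible by `d` the `H`-orbit of `f n` has a positive term `≤ (f n)^(1 - κ / D + ε)`,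
`κ = 1 - (d - 1) / d * log_d m`.
-/

set_option autoImplicit false

open Polynomial MeasureTheory

namespace Pool.Agent.Results.MP_fd8838_nt.PadicClasses

/-- The generalized Hasse–Syracuse map `H(x) = (m x - r_j) / d ^ a(x)`, where `x ≡ j` modulo `d` and
`d ^ a(x)` is the largest power of `d` dividing `m x - r_j`. -/
noncomputable def H (d m : ℕ) (r : ℤ → ℤ) (x : ℤ) : ℤ :=
  (m * x - r (x % d)) / (d : ℤ) ^ multiplicity (d : ℤ) (m * x - r (x % d))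

/-- The iterate `H^k(y)` is defined: the orbit does not stop before (it stops at `z` if
`m z ≤ r_j`, where `z ≡ j` modulo `d`). -/
def Defined (d m : ℕ) (r : ℤ → ℤ) (y : ℤ) (k : ℕ) : Prop :=
  ∀ i < k, r ((H d m r)^[i] y % d) < m * (H d m r)^[i] y

/-- The exceptional set `E(d, m, R)`: the positive integers `n` not divisible by `d` such that
`H^k(n) ≥ n` for all `k ≥ 1` for which `H^k(n)` is defined. -/
def E (d m : ℕ) (r : ℤ → ℤ) : Set ℤ :=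
  {n | 0 < n ∧ ¬ (d : ℤ) ∣ n ∧ ∀ k, 1 ≤ k → Defined d m r n k → n ≤ (H d m r)^[k] n}

/-- For all large `T`, no integer `n` with `|n| ≤ T` and `|n - α|_p ≤ T ^ (-σ)` has the property `P`. -/
def Misses (p : ℕ) [Fact p.Prime] (σ : ℝ) (P : ℤ → Prop) (α : ℤ_[p]) : Prop :=
  ∃ T₀ : ℝ, ∀ T ≥ T₀, ∀ n : ℤ, |(n : ℝ)| ≤ T → ‖(n : ℤ_[p]) - α‖ ≤ T ^ (-σ) → ¬ P n

/-- The `H`-orbit of `y` has a positive term `≤ y ^ e`. -/
def Descends (d m : ℕ) (r : ℤ → ℤ) (e : ℝ) (y : ℤ) : Prop :=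
  ∃ k : ℕ, Defined d m r y k ∧ 0 < (H d m r)^[k] y ∧ (((H d m r)^[k] y : ℤ) : ℝ) ≤ (y : ℝ) ^ e

theorem misses_of (p : ℕ) [Fact p.Prime] {P : ℤ → Prop} {δ K : ℝ}
    (h : ∀ X : ℝ, 1 ≤ X → ({n : ℤ | |(n : ℝ)| ≤ X ∧ P n}.ncard : ℝ) ≤ K * X ^ (1 - δ)) (hδ1 : δ ≤ 1)
    {σ : ℝ} (hσ : 0 < σ) :
    ∃ B : Set ℤ_[p], dimH B ≤ ENNReal.ofReal ((1 - δ) / σ) ∧ ∀ α ∉ B, Misses p σ P α := by
  obtain ⟨B, h1, h2⟩ := Pool.Agent.V11243.PD.family_int p (fun _ => {n : ℤ | P n})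
    (s := 1 - δ) (by linarith) (fun _ => ⟨K, h⟩) hσ
  exact ⟨B, h1, fun α hα => h2 α hα 0⟩

theorem result (d m : ℕ) (hd : 2 ≤ d) (hm : 2 ≤ m) (hc : Nat.Coprime m d)
    (hle : (m : ℝ) ≤ (d : ℝ) ^ ((d : ℝ) / ((d : ℝ) - 1))) (r : ℤ → ℤ)
    (hr : ∀ j : ℤ, 1 ≤ j → j < d → r j ≡ m * j [ZMOD d]) (f : ℤ[X]) (hf : 1 ≤ f.natDegree) :
    (∃ δ : ℝ, 0 < δ ∧ δ ≤ 1 ∧ ∀ (p : ℕ) [Fact p.Prime] (σ : ℝ), 0 < σ →
      ∃ B : Set ℤ_[p], dimH B ≤ ENNReal.ofReal ((1 - δ) / σ) ∧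
        ∀ α ∉ B, Misses p σ (fun n => f.eval n ∈ E d m r) α) ∧
    (∀ ε : ℝ, 0 < ε → ∃ δ : ℝ, 0 < δ ∧ δ ≤ 1 ∧ ∀ (p : ℕ) [Fact p.Prime] (σ : ℝ), 0 < σ →
      ∃ B : Set ℤ_[p], dimH B ≤ ENNReal.ofReal ((1 - δ) / σ) ∧
        ∀ α ∉ B, Misses p σ (fun n => 0 < f.eval n ∧ ¬ (d : ℤ) ∣ f.eval n ∧
          ¬ Descends d m r
            (1 - (1 - ((d : ℝ) - 1) / d * (Real.log m / Real.log d)) / f.natDegree + ε) (f.eval n)) α) := by
  obtain ⟨h1, h2⟩ :=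
    Pool.Agent.Results.MP_fd8838_nt.PolynomialExceptional.result d m hd hm hc hle r hr f hf
  refine ⟨?_, fun ε hε => ?_⟩
  · obtain ⟨δ, K, hδ, hK, h⟩ := h1
    refine ⟨min δ 1, lt_min hδ one_pos, min_le_right _ _, fun p _ σ hσ =>
      misses_of p (K := K * 3) (fun X hX => ?_) (min_le_right _ _) hσ⟩
    have hX0 : 0 < X := by linarith
    have hfl : (⌊X⌋ : ℝ) ≤ X := Int.floor_le X
    have hfl0 : (0 : ℝ) ≤ (⌊X⌋ : ℝ) := by exact_mod_cast Int.floor_nonneg.2 hX0.le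
    have h3 := h (-⌊X⌋ - 1) (2 * (⌊X⌋ : ℝ) + 1) (by linarith)
    have hsub : {n : ℤ | |(n : ℝ)| ≤ X ∧ f.eval n ∈ E d m r} ⊆
        {n : ℤ | -⌊X⌋ - 1 < n ∧ (n : ℝ) ≤ ((-⌊X⌋ - 1 : ℤ) : ℝ) + (2 * (⌊X⌋ : ℝ) + 1) ∧
          f.eval n ∈ E d m r} := by
      rintro n ⟨a, b⟩
      have a1 := abs_le.1 a
      have e1 : n ≤ ⌊X⌋ := Int.le_floor.2 a1.2
      have e2 : -n ≤ ⌊X⌋ := Int.le_floor.2 (by push_cast; linarith [a1.1])
      refine ⟨by omega, ?_, b⟩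
      have e3 : (n : ℝ) ≤ (⌊X⌋ : ℝ) := by exact_mod_cast e1
      push_cast
      linarith
    have hfin : {n : ℤ | -⌊X⌋ - 1 < n ∧ (n : ℝ) ≤ ((-⌊X⌋ - 1 : ℤ) : ℝ) + (2 * (⌊X⌋ : ℝ) + 1) ∧
          f.eval n ∈ E d m r}.Finite := by
      refine (Set.finite_Icc (-⌊X⌋ - 1) ⌊X⌋).subset ?_
      rintro n ⟨a, b, _⟩
      refine ⟨a.le, ?_⟩
      have : (n : ℝ) ≤ (⌊X⌋ : ℝ) := by
        push_cast at b
        linarith
      exact_mod_cast this
    have h4 : ({n : ℤ | |(n : ℝ)| ≤ X ∧ f.eval n ∈ E d m r}.ncard : ℝ) ≤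
        K * (2 * (⌊X⌋ : ℝ) + 1) ^ (1 - δ) :=
      le_trans (by exact_mod_cast Set.ncard_le_ncard hsub hfin) h3
    refine h4.trans ?_
    rw [mul_assoc]
    refine mul_le_mul_of_nonneg_left ?_ hK.le
    have hmin : 0 ≤ 1 - min δ 1 := by linarith [min_le_right δ 1]
    calc (2 * (⌊X⌋ : ℝ) + 1) ^ (1 - δ) ≤ (2 * (⌊X⌋ : ℝ) + 1) ^ (1 - min δ 1) :=
          Real.rpow_le_rpow_of_exponent_le (by linarith) (by linarith [min_le_left δ 1])
      _ ≤ (3 * X) ^ (1 - min δ 1) := Real.rpow_le_rpow (by linarith) (by linarith) hmin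
      _ = 3 ^ (1 - min δ 1) * X ^ (1 - min δ 1) := Real.mul_rpow (by norm_num) hX0.le
      _ ≤ 3 * X ^ (1 - min δ 1) := by
          refine mul_le_mul_of_nonneg_right ?_ (by positivity)
          calc (3 : ℝ) ^ (1 - min δ 1) ≤ 3 ^ (1 : ℝ) :=
                Real.rpow_le_rpow_of_exponent_le (by norm_num) (by linarith [lt_min hδ one_pos])
            _ = 3 := Real.rpow_one 3
  · obtain ⟨δ, K, hδ, hK, h⟩ := h2 ε hε
    refine ⟨min δ 1, lt_min hδ one_pos, min_le_right _ _, fun p _ σ hσ =>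
      misses_of p (K := K) (fun X hX => (h X hX).trans ?_) (min_le_right _ _) hσ⟩
    exact mul_le_mul_of_nonneg_left
      (Real.rpow_le_rpow_of_exponent_le hX (by linarith [min_le_left δ 1])) hK.le

end Pool.Agent.Results.MP_fd8838_nt.PadicClasses
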