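import Pool.Agent.Y927.GP.M2
import Pool.Agent.V11113.CT.Traj2
import Pool.Agent.V11113.MR.BilFam

/-!
# Möller's exceptional sets and thin families of integers

The families consist of the integers `n = z + v i`, where `z` is an arbitrary integer and the `v i` are the least residues modulo
an arbitrary large integer `M` of a family with exponential sums `O(#s M ^ (-ω))`, with an arbitrarily small `ω > 0` (`Small`).
Examples (part (3)): the values `x · Q y + f₁(x) + f₂(y)` modulo a prime `p` at the pairs of vectors of two arbitrary sets with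
`#A #A' ≥ p ^ (k + 2 ω)`; for `k = 1` this contains the products of the elements of two arbitrary sets with
`#A #A' ≥ p ^ (1 + 2 ω)` and the multiplicative subgroups of order `p ^ (1 / 2 + ω)`. Nothing else is assumed about the family;
it may have as few as about `M ^ (2 ω)` different members.

Let `gcd(m, d) = 1`, `1 ≤ m ≤ d^(d/(d-1))`, let `R` be admissible and `f` a nonconstant polynomial with integer coefficients.
For all but a proportion `M ^ (-δ)` of the members `n` the number `f n` is not in the exceptional set `E(d, m, R)`.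
-/

set_option autoImplicit false

namespace Pool.Agent.Results.MP_fd8838_nt.ThinFamilies

open Finset Filter Polynomial Pool.Agent.Y927.GP Matrix

/-- The generalised Hasse-Syracuse map `H(x) = (m x - r_j) / d ^ a(x)`, where `j` is the residue of
`x` modulo `d` and `d ^ a(x)` is the largest power of `d` dividing `m x - r_j`. -/
noncomputable def H (d m : ℕ) (r : ℤ → ℤ) (x : ℤ) : ℤ :=
  (m * x - r (x % d)) / (d : ℤ) ^ multiplicity (d : ℤ) (m * x - r (x % d))

/-- The iterate `H^k(y)` is defined: the orbit does not stop before (it stops at `z` if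
`m z ≤ r_j`, where `z ≡ j` modulo `d`). -/
def Defined (d m : ℕ) (r : ℤ → ℤ) (y : ℤ) (k : ℕ) : Prop :=
  ∀ i < k, r ((H d m r)^[i] y % d) < m * (H d m r)^[i] y

/-- The exceptional set `E(d, m, R)`: the positive integers `n` not divisible by `d` such that
`H^k(n) ≥ n` for all `k ≥ 1` for which `H^k(n)` is defined. -/
def E (d m : ℕ) (r : ℤ → ℤ) : Set ℤ :=
  {n | 0 < n ∧ ¬ (d : ℤ) ∣ n ∧ ∀ k, 1 ≤ k → Defined d m r n k → n ≤ (H d m r)^[k] n}

/-- The exponential sums over the family `v i ∈ ℤ / M`, `i ∈ s`, at all nonzero frequencies are at most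
`#s M ^ (-ω)`. (`ZMod.stdAddChar` is the character `e(x / M)`.) -/
def Small (M : ℕ) [NeZero M] (ω : ℝ) {ι : Type} (s : Finset ι) (v : ι → ZMod M) : Prop :=
  ∀ b : ZMod M, b ≠ 0 → ‖∑ i ∈ s, (ZMod.stdAddChar (b * v i) : ℂ)‖ ≤ s.card * (M : ℝ) ^ (-ω)

open Classical in
/-- The number of the members `i` of the family for which the integer `n i` does not have the property `P`. -/
noncomputable def exceptions {ι : Type} (s : Finset ι) (n : ι → ℤ) (P : ℤ → Prop) : ℕ :=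
  (s.filter (fun i => ¬ P (n i))).card

theorem exceptions_le {ι : Type} {s : Finset ι} {n : ι → ℤ} {P : ℤ → Prop} {X : ℝ}
    (h : ∀ A ⊆ s, (∀ i ∈ A, ¬ P (n i)) → (A.card : ℝ) ≤ X) : (exceptions s n P : ℝ) ≤ X := by
  classical
  unfold exceptions
  exact h _ (filter_subset _ _) (fun S hS => (mem_filter.1 hS).2)

/-- the `H`-orbit, if the `T`-orbit comes down -/
theorem descent {d m : ℕ} (hd : 2 ≤ d) (hm : 1 ≤ m) {r : ℤ → ℤ} (hr : ∀ j : ℤ, 1 ≤ j → j < d → (d : ℤ) ∣ m * j - r j)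
    {y : ℤ} (hy : 0 < y) (hyd : ¬ (d : ℤ) ∣ y) {k : ℕ} {Z : ℝ} (hk : |(((Mo.T d m r)^[k] y : ℤ) : ℝ)| ≤ Z) (hb : (Mo.bd d r : ℝ) ≤ Z) :
    ∃ k' : ℕ, Defined d m r y k' ∧ 0 < (H d m r)^[k'] y ∧ (((H d m r)^[k'] y : ℤ) : ℝ) ≤ Z := by
  obtain ⟨k', h1, h2, h3⟩ := Mo.key hd hm hr (Mo.le_bd (d := d) (r := r)) hy hyd k
  refine ⟨k', h1, h2, ?_⟩
  have e1 : (Mo.H d m r)^[k'] y = (H d m r)^[k'] y := rfl
  rw [e1] at h2 h3
  rcases h3 with ⟨s, hs, -⟩ | h3
  · have h6 : (H d m r)^[k'] y ≤ (Mo.T d m r)^[k] y := by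
      rw [hs]
      have : (1 : ℤ) ≤ (d : ℤ) ^ s := one_le_pow₀ (by omega)
      nlinarith
    have h7 : (((H d m r)^[k'] y : ℤ) : ℝ) ≤ (((Mo.T d m r)^[k] y : ℤ) : ℝ) := by exact_mod_cast h6
    exact h7.trans ((le_abs_self _).trans hk)
  · have h6 : (((H d m r)^[k'] y : ℤ) : ℝ) ≤ ((Mo.bd d r : ℕ) : ℝ) := by exact_mod_cast h3
    exact h6.trans hb

/-- **Main theorem.** Let `gcd(m, d) = 1`, `1 ≤ m ≤ d^(d/(d-1))`, let `R` be admissible, `f` a polynomial of degree at least `1` with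
integer coefficients and `ω > 0`.

(1) There are `δ > 0` and `M₀` such that for all `M ≥ M₀`, all families with `Small M ω s v` and ALL integers `z` all but at most
`M ^ (-δ) #s` of the integers `n = z + v i` (`0 ≤ v i < M` the least residue) satisfy `f n ∉ E(d, m, R)`.

(2) For every `B ≥ 1` there are `η, δ > 0` and `M₀` such that for all `M ≥ M₀`, all families with `Small M ω s v` and all integers
`z` with `|z| ≤ M ^ B` all but at most `M ^ (-δ) #s` of the integers `n = z + v i` have the following property: if `f n` is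
positive and not divisible by `d`, then the `H`-orbit of `f n` has a term `0 < H^k(f n) ≤ (f n) ^ (1 - η)`.

(3) `Small p ω` holds for every prime `p`, every `k`, all sets `A`, `A'` of vectors modulo `p` with
`#A #A' ≥ p ^ (k + 2 ω)`, every invertible matrix `Q` and arbitrary functions `f₁`, `f₂`, for the family
`x · Q y + f₁(x) + f₂(y)`, `x ∈ A`, `y ∈ A'`. -/
theorem result (d m : ℕ) (hd : 2 ≤ d) (hm : 1 ≤ m) (hc : Nat.Coprime m d)
    (hle : (m : ℝ) ≤ (d : ℝ) ^ ((d : ℝ) / ((d : ℝ) - 1))) (r : ℤ → ℤ)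
    (hr : ∀ j : ℤ, 1 ≤ j → j < d → r j ≡ m * j [ZMOD d]) (f : ℤ[X]) (hf : 1 ≤ f.natDegree)
    (ω : ℝ) (hω : 0 < ω) :
    (∃ δ : ℝ, 0 < δ ∧ ∃ M₀ : ℕ, ∀ (M : ℕ) [NeZero M], M₀ ≤ M → ∀ (ι : Type) (s : Finset ι) (v : ι → ZMod M),
      Small M ω s v → ∀ z : ℤ,
      (exceptions s (fun i => z + ((v i).val : ℤ)) (fun n => f.eval n ∉ E d m r) : ℝ) ≤ (M : ℝ) ^ (-δ) * s.card) ∧
    (∀ B : ℝ, 1 ≤ B → ∃ η δ : ℝ, 0 < η ∧ 0 < δ ∧ ∃ M₀ : ℕ, ∀ (M : ℕ) [NeZero M], M₀ ≤ M →
      ∀ (ι : Type) (s : Finset ι) (v : ι → ZMod M), Small M ω s v → ∀ z : ℤ, |(z : ℝ)| ≤ (M : ℝ) ^ B →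
      (exceptions s (fun i => z + ((v i).val : ℤ)) (fun n => 0 < f.eval n → ¬ (d : ℤ) ∣ f.eval n →
        ∃ k : ℕ, Defined d m r (f.eval n) k ∧ 0 < (H d m r)^[k] (f.eval n) ∧
          (((H d m r)^[k] (f.eval n) : ℤ) : ℝ) ≤ ((f.eval n : ℤ) : ℝ) ^ (1 - η)) : ℝ) ≤
            (M : ℝ) ^ (-δ) * s.card) ∧
    (∀ (p : ℕ) [Fact p.Prime] (k : ℕ) (A A' : Finset (Fin k → ZMod p)) (Q : Matrix (Fin k) (Fin k) (ZMod p)),
      IsUnit Q.det → (p : ℝ) ^ (k + 2 * ω) ≤ A.card * A'.card → ∀ f₁ f₂ : (Fin k → ZMod p) → ZMod p,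
      Small p ω (A ×ˢ A') (fun z => z.1 ⬝ᵥ Q.mulVec z.2 + f₁ z.1 + f₂ z.2)) := by
  have hr' : ∀ j : ℤ, 1 ≤ j → j < d → (d : ℤ) ∣ m * j - r j := fun j h1 h2 => (hr j h1 h2).dvd
  have D := Mo.data (r := r) hd hc hr'
  have hC := Mo.cls (m := m) (r := r) hd
  have hμ : mu (Pool.Agent.H319R2.Leigh.gm D) (Mo.CC d) (fun _ => 1 / (d : ℝ)) < 0 := by
    rw [Mo.mu_eq hd D]
    have := Mo.m_lt hd hm hc hle
    linarith
  have hTT : (Pool.Agent.H319R2.Leigh.gm D).T = Mo.T d m r := by rw [Pool.Agent.H319R2.Leigh.gm_T, Mo.T_eq]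
  obtain ⟨c, c₂, δ, hc0, hc₂, hδ, t₀, h⟩ := Pool.Agent.V11113.CT.drop (Pool.Agent.H319R2.Leigh.gm_fac D)
    (Pool.Agent.H319R2.Leigh.gm_cls D hC) hμ hf hω
  rw [hTT] at h
  refine ⟨?_, fun B hB => ?_, ?_⟩
  · have hev : ∀ᶠ t : ℝ in atTop, ((Mo.bd d r : ℕ) : ℝ) + 1 ≤ Real.exp (c * t) ∧ 1 ≤ t ∧ t₀ ≤ t := by
      have h1 : Tendsto (fun t : ℝ => Real.exp (c * t)) atTop atTop :=
        Real.tendsto_exp_atTop.comp (tendsto_id.const_mul_atTop hc0)
      filter_upwards [h1.eventually (eventually_ge_atTop _), eventually_ge_atTop 1, eventually_ge_atTop t₀] with t a1 a2 a3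
      exact ⟨a1, a2, a3⟩
    obtain ⟨t₁, ht₁⟩ := eventually_atTop.1 hev
    refine ⟨δ, hδ, max 2 ⌈Real.exp t₁⌉₊, fun M _ hM ι s v hsum z => ?_⟩
    have hM0 : (0 : ℝ) < M := by exact_mod_cast (by have := (le_max_left _ _).trans hM; omega : 0 < M)
    have ht : t₁ ≤ Real.log M := by
      rw [Real.le_log_iff_exp_le hM0]
      exact (Nat.le_ceil _).trans (Nat.cast_le.2 ((le_max_right _ _).trans hM))
    have hconv : (M : ℝ) ^ (-δ) = Real.exp (-(δ * Real.log M)) := by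
      rw [Real.rpow_def_of_pos hM0]
      congr 1
      ring
    rw [hconv]
    obtain ⟨t, htdef⟩ : ∃ t, t = Real.log M := ⟨_, rfl⟩
    rw [← htdef] at ht ⊢
    obtain ⟨hb1, hb2, hb3⟩ := ht₁ t ht
    apply exceptions_le
    intro A hA hE
    refine h M t htdef hb3 s v hsum z A hA (fun S hS => ⟨Mo.mem_S hd _, ?_⟩)
    rintro ⟨h1, k, -, h2⟩
    apply hE S hS
    rintro ⟨hy, hyd, hEy⟩
    obtain ⟨y, hydef⟩ : ∃ y, y = f.eval (z + ((v S).val : ℤ)) := ⟨_, rfl⟩
    simp only [← hydef] at h1 h2 hy hyd hEy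
    have hyr : (0 : ℝ) < (y : ℝ) := by exact_mod_cast hy
    rw [abs_of_pos hyr] at h1 h2
    obtain ⟨k', h3, h4, h5⟩ := descent hd hm hr' hy hyd (k := k) (Z := max (Real.exp (-(c₂ * t)) * (y : ℝ)) (Mo.bd d r : ℝ))
      (h2.trans (le_max_left _ _)) (le_max_right _ _)
    have h6 : (((H d m r)^[k'] y : ℤ) : ℝ) < y := by
      refine lt_of_le_of_lt h5 (max_lt ?_ (by linarith))
      have h7 : Real.exp (-(c₂ * t)) < 1 := by
        rw [Real.exp_lt_one_iff]
        have : 0 < c₂ * t := by positivity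
        linarith
      exact mul_lt_of_lt_one_left hyr h7
    have h8 : (H d m r)^[k'] y < y := by exact_mod_cast h6
    rcases Nat.eq_zero_or_pos k' with h0 | h0
    · subst h0
      simp at h8
    · have := hEy k' h0 h3
      omega
  · obtain ⟨B', hB', t₁, h'⟩ := Pool.Agent.V11113.CT.size_up f c hc0 (B + 1) (by linarith)
    obtain ⟨η, hη⟩ : ∃ η, η = min (c₂ / B') (1 / 2) := ⟨_, rfl⟩
    have hη0 : 0 < η := by rw [hη]; exact lt_min (by positivity) (by norm_num)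
    have hη1 : η ≤ c₂ / B' := by rw [hη]; exact min_le_left _ _
    have hη2 : η ≤ 1 / 2 := by rw [hη]; exact min_le_right _ _
    have hev : ∀ᶠ t : ℝ in atTop, ((Mo.bd d r : ℕ) : ℝ) ≤ Real.exp (c / 2 * t) ∧ t₀ ≤ t ∧ t₁ ≤ t := by
      have h1 : Tendsto (fun t : ℝ => Real.exp (c / 2 * t)) atTop atTop :=
        Real.tendsto_exp_atTop.comp (tendsto_id.const_mul_atTop (by positivity))
      filter_upwards [h1.eventually (eventually_ge_atTop _), eventually_ge_atTop t₀, eventually_ge_atTop t₁] with t a1 a2 a3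
      exact ⟨a1, a2, a3⟩
    obtain ⟨t₂, ht₂⟩ := eventually_atTop.1 hev
    refine ⟨η, δ, hη0, hδ, max 2 ⌈Real.exp t₂⌉₊, fun M _ hM ι s v hsum z hz => ?_⟩
    have hM2 : 2 ≤ M := (le_max_left _ _).trans hM
    have hM0 : (0 : ℝ) < M := by exact_mod_cast (by omega : 0 < M)
    have ht : t₂ ≤ Real.log M := by
      rw [Real.le_log_iff_exp_le hM0]
      exact (Nat.le_ceil _).trans (Nat.cast_le.2 ((le_max_right _ _).trans hM))
    have hconv : (M : ℝ) ^ (-δ) = Real.exp (-(δ * Real.log M)) := by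
      rw [Real.rpow_def_of_pos hM0]
      congr 1
      ring
    rw [hconv]
    obtain ⟨t, htdef⟩ : ∃ t, t = Real.log M := ⟨_, rfl⟩
    rw [← htdef] at ht ⊢
    obtain ⟨hb1, hb2, hb3⟩ := ht₂ t ht
    apply exceptions_le
    intro A hA hE
    refine h M t htdef hb2 s v hsum z A hA (fun S hS => ⟨Mo.mem_S hd _, ?_⟩)
    rintro ⟨h1, k, -, h2⟩
    apply hE S hS
    intro hy hyd
    have h5 := Pool.Agent.V11113.CT.member_size hB M hM2 z hz (v S)
    rw [← htdef] at h5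
    have h6 := h' t hb3 _ h5 h1
    obtain ⟨y, hydef⟩ : ∃ y, y = f.eval (z + ((v S).val : ℤ)) := ⟨_, rfl⟩
    simp only [← hydef] at h1 h2 hy hyd h6 ⊢
    have hyr : (0 : ℝ) < (y : ℝ) := by exact_mod_cast hy
    rw [abs_of_pos hyr] at h1 h2 h6
    have hy1 : (1 : ℝ) ≤ y := by exact_mod_cast hy
    refine descent hd hm hr' hy hyd (k := k) ?_ ?_
    · refine h2.trans (((Pool.Agent.V11113.CT.exp_to_pow hc₂ hB' hyr h6).1).trans ?_)
      exact Real.rpow_le_rpow_of_exponent_le hy1 (by linarith)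
    · refine hb1.trans ?_
      calc Real.exp (c / 2 * t) = (Real.exp (c * t)) ^ (1 / 2 : ℝ) := by
            rw [← Real.exp_mul]
            congr 1
            ring
        _ ≤ (y : ℝ) ^ (1 / 2 : ℝ) := Real.rpow_le_rpow (by positivity) h1 (by norm_num)
        _ ≤ _ := Real.rpow_le_rpow_of_exponent_le hy1 (by linarith)
  · intro p _ k A A' Q hQ hN f₁ f₂ b hb
    exact Pool.Agent.V11113.MR.bil_small ω p k A A' Q hQ f₁ f₂ hN b hb

end Pool.Agent.Results.MP_fd8838_nt.ThinFamilies
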